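import Pool.Agent.U987.SY.Iso

/-!
# Symplectomorphisms of `ℝ²ⁿ` with small stretch are smoothly isotopic to the identity

`SympCt n` is the group of compactly supported symplectomorphisms of `ℝ²ⁿ` (starting library). Let
`φ`, `ψ` be two of its elements (for instance `ψ = id`) such that `|dφ(x) v| ≤ μ |dψ(x) v|` for all
`x` and `v`, with `μ⁴ (√(2n) - 1) < √(2n) + 1`. Then `φ` and `ψ` are joined by a smooth path of
diffeomorphisms with uniform compact support (the diffeomorphisms in between are not symplectic in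
general). It suffices that `μ² ≤ 1 + 1 / √(2n)`, and in dimension six that `μ ≤ 1.24`.

Proof. `φ ψ⁻¹` is symplectic and its differentials have norm at most `μ`, so it multiplies distances
by factors between `1 / μ` and `μ`. It is mollified at all scales with a radial kernel; the four
point inequality for reflected pairs of points shows that the differentials of the mollified maps
are invertible, and they are equal to the identity off a compact set.
-/

set_option autoImplicit false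

open Pool.Agent.W71.EC
open scoped ContDiff

namespace Pool.Agent.Results.MP_530380_gt.SmallStretch

variable {n : ℕ}

/-- The square of the Euclidean norm of a vector of `ℝ²ⁿ`. -/
def sq (v : R2 n) : ℝ := ∑ i, (v.1 i ^ 2 + v.2 i ^ 2)

/-- The directional derivative `D_v φ (x)`. -/
noncomputable def dv (φ : SympCt n) (v x : R2 n) : R2 n := fderiv ℝ φ.toEquiv x v

/-- `g` is a diffeomorphism of `ℝ²ⁿ`. -/
def IsDiffeo (g : R2 n → R2 n) : Prop :=
  ∃ Φ : R2 n ≃ R2 n, ContDiff ℝ ∞ Φ ∧ ContDiff ℝ ∞ Φ.symm ∧ ∀ x, Φ x = g x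

/-- `φ` and `ψ` are joined by a smooth path of diffeomorphisms of `ℝ²ⁿ` which are equal to the
identity off one compact set. -/
def SmoothlyIsotopic (φ ψ : SympCt n) : Prop :=
  ∃ F : ℝ × R2 n → R2 n, ContDiff ℝ ∞ F ∧ (∀ t, IsDiffeo fun x => F (t, x)) ∧
    (∀ x, F (0, x) = ψ.toEquiv x) ∧ (∀ x, F (1, x) = φ.toEquiv x) ∧
    ∃ K : Set (R2 n), IsCompact K ∧ ∀ t x, x ∉ K → F (t, x) = x

/-- The differential of `φ` stretches vectors by at most the factor `μ` more than that of `ψ`. -/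
def StretchedAtMost (μ : ℝ) (φ ψ : SympCt n) : Prop :=
  ∀ x v, sq (dv φ v x) ≤ μ ^ 2 * sq (dv ψ v x)

theorem result (n : ℕ) :
    (∀ (μ : ℝ) (φ ψ : SympCt n), 1 ≤ μ →
      μ ^ 4 * (Real.sqrt (2 * (n : ℝ)) - 1) < Real.sqrt (2 * (n : ℝ)) + 1 →
      StretchedAtMost μ φ ψ → SmoothlyIsotopic φ ψ) ∧
    (1 ≤ n → ∀ φ ψ : SympCt n,
      StretchedAtMost (Real.sqrt (1 + 1 / Real.sqrt (2 * (n : ℝ)))) φ ψ →
      SmoothlyIsotopic φ ψ) ∧
    ∀ φ ψ : SympCt 3, StretchedAtMost 1.24 φ ψ → SmoothlyIsotopic φ ψ := by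
  have key : ∀ (m : ℕ) (μ : ℝ) (φ ψ : SympCt m), 1 ≤ μ →
      μ ^ 4 * (Real.sqrt (2 * (m : ℝ)) - 1) < Real.sqrt (2 * (m : ℝ)) + 1 →
      StretchedAtMost μ φ ψ → SmoothlyIsotopic φ ψ := by
    intro m μ φ ψ h0 h1 h
    have e : ((m + m : ℕ) : ℝ) = 2 * (m : ℝ) := by
      push_cast
      ring
    exact Pool.Agent.U987.SY.smooth_iso h0 (by rw [e]; linarith) φ ψ h
  refine ⟨key n, fun hn φ ψ h => ?_, fun φ ψ h => ?_⟩
  · have hn' : (1 : ℝ) ≤ n := by exact_mod_cast hn
    obtain ⟨s, hs⟩ : ∃ s, s = Real.sqrt (2 * (n : ℝ)) := ⟨_, rfl⟩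
    have hs0 : 0 < s := by
      rw [hs]
      exact Real.sqrt_pos.2 (by linarith)
    have h2 : Real.sqrt (1 + 1 / s) ^ 2 = 1 + 1 / s := Real.sq_sqrt (by positivity)
    rw [← hs] at h
    have h1 : 1 ≤ Real.sqrt (1 + 1 / s) := by
      rw [Real.one_le_sqrt]
      have : 0 < 1 / s := by positivity
      linarith
    refine key n _ φ ψ h1 ?_ h
    rw [← hs]
    have h4 : Real.sqrt (1 + 1 / s) ^ 4 = (1 + 1 / s) ^ 2 := by
      calc Real.sqrt (1 + 1 / s) ^ 4 = (Real.sqrt (1 + 1 / s) ^ 2) ^ 2 := by ring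
        _ = (1 + 1 / s) ^ 2 := by rw [h2]
    rw [h4]
    have h5 : (1 + 1 / s) ^ 2 * (s - 1) = s + 1 - 1 / s - 1 / s ^ 2 := by
      field_simp
      ring
    rw [h5]
    have : 0 < 1 / s := by positivity
    have : 0 < 1 / s ^ 2 := by positivity
    linarith
  · refine key 3 _ φ ψ (by norm_num) ?_ h
    obtain ⟨s, hs⟩ : ∃ s, s = Real.sqrt (2 * ((3 : ℕ) : ℝ)) := ⟨_, rfl⟩
    have hs2 : s ^ 2 = 6 := by
      rw [hs, Real.sq_sqrt (by positivity)]
      norm_num
    have hs0 : 0 ≤ s := hs ▸ Real.sqrt_nonneg _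
    have hs1 : s ≤ 2.4495 := by
      by_contra h
      push Not at h
      nlinarith
    rw [← hs]
    norm_num
    nlinarith

end Pool.Agent.Results.MP_530380_gt.SmallStretch
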